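import Pool.Agent.Helper7.HL.Stmts

/-!
# Haglund's conjecture for large `k`: generating series

Power series in `u` over the polynomials in the variables; `fx c x` is the series
`sum_a c_a (x u)^a`.
-/

namespace Pool.Agent.Helper25.HL

open Finset MvPolynomial
open Pool.Agent.Helper7.HL Pool.Agent.Helper32.HG

/-- the series `sum_a c_a (x u)^a` -/
noncomputable def fx {A : Type} [CommRing A] (c : ℕ → A) (x : A) : PowerSeries A :=
  PowerSeries.mk (fun a => c a * x ^ a)

/-- the product of the series of the variables -/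
theorem mk_gen {S : Type} [CommRing S] {N : ℕ} (c : Fin N → ℕ → S) :
    (PowerSeries.mk (fun m : ℕ => ∑ d ∈ piAntidiag (univ : Finset (Fin N)) m,
      monomial (ex d) (∏ i, c i (d i))) : PowerSeries (MvPolynomial (Fin N) S)) =
    ∏ i : Fin N, fx (fun a => (C (c i a) : MvPolynomial (Fin N) S)) (X i) := by
  ext m : 1
  rw [PowerSeries.coeff_mk, PowerSeries.coeff_prod]
  refine Finset.sum_bij' (fun d _ => ex d) (fun l _ => (l : Fin N → ℕ)) ?_ ?_ ?_ ?_ ?_
  · intro d hd
    rw [Finset.mem_piAntidiag] at hd
    rw [Finset.mem_finsuppAntidiag]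
    refine ⟨?_, by simp⟩
    rw [← hd.1]
    rfl
  · intro l hl
    rw [Finset.mem_finsuppAntidiag] at hl
    rw [Finset.mem_piAntidiag]
    exact ⟨hl.1, by simp⟩
  · intro d _
    rfl
  · intro l _
    ext i
    rfl
  · intro d _
    rw [monomial_eq, map_prod, Finsupp.prod_fintype _ _ (by simp), ← Finset.prod_mul_distrib]
    apply Finset.prod_congr rfl
    intro i _
    unfold fx
    rw [PowerSeries.coeff_mk]
    rfl

theorem mk_gw {S : Type} [CommRing S] (c : ℕ → S) (N : ℕ) :
    (PowerSeries.mk (gw c N) : PowerSeries (MvPolynomial (Fin N) S)) =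
    ∏ i : Fin N, fx (fun a => (C (c a) : MvPolynomial (Fin N) S)) (X i) :=
  mk_gen (fun _ => c)

theorem hk_gw {S : Type} [CommRing S] (N m : ℕ) : hk N S m = gw (fun _ => (1 : S)) N m := by
  unfold hk gw
  apply Finset.sum_congr rfl
  intro d _
  rw [Finset.prod_const_one]
  rfl

theorem fx_one {A : Type} [CommRing A] (x : A) :
    fx (fun _ => (1 : A)) x * (1 - PowerSeries.C x * PowerSeries.X) = 1 := by
  ext m
  rw [mul_sub, mul_one, map_sub, ← mul_assoc]
  cases m with
  | zero =>
    simp [fx]
  | succ m =>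
    rw [PowerSeries.coeff_succ_mul_X, mul_comm (fx _ x), PowerSeries.coeff_C_mul]
    unfold fx
    rw [PowerSeries.coeff_mk, PowerSeries.coeff_mk, PowerSeries.coeff_one,
      if_neg (Nat.succ_ne_zero m), pow_succ]
    ring

/-- `Hk(u) prod (1 - x_i u) = 1` -/
theorem hk_mul {S : Type} [CommRing S] (N : ℕ) :
    (PowerSeries.mk (hk N S) : PowerSeries (MvPolynomial (Fin N) S)) *
      ∏ i : Fin N, (1 - PowerSeries.C (X i) * PowerSeries.X) = 1 := by
  have h1 : (PowerSeries.mk (hk N S) : PowerSeries (MvPolynomial (Fin N) S)) =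
      ∏ i : Fin N, fx (fun _ => (1 : MvPolynomial (Fin N) S)) (X i) := by
    have h2 : hk N S = gw (fun _ => (1 : S)) N := by
      funext m
      exact hk_gw N m
    rw [h2, mk_gw]
    simp
  rw [h1, ← Finset.prod_mul_distrib]
  exact Finset.prod_eq_one fun i _ => fx_one (X i)

theorem ph_zero {K : Type} [Field K] (q t : K) : ph q t 0 = 1 := by
  unfold ph
  simp

theorem ph_succ {K : Type} [Field K] {q t : K} (hq : GQ q) (m : ℕ) :
    (1 - q ^ (m + 1)) * ph q t (m + 1) = (1 - t * q ^ m) * ph q t m := by
  unfold ph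
  rw [Finset.prod_range_succ]
  have h := hq (m + 1) (Nat.succ_pos m)
  field_simp

theorem rescale_fx {A : Type} [CommRing A] (c : ℕ → A) (x a : A) :
    PowerSeries.rescale a (fx c x) = fx c (a * x) := by
  ext m
  rw [PowerSeries.coeff_rescale]
  unfold fx
  rw [PowerSeries.coeff_mk, PowerSeries.coeff_mk, mul_pow]
  ring

/-- `phi(u) (1 - u) = phi(q u) (1 - t u)` -/
theorem fx_ph {K : Type} [Field K] {q t : K} (hq : GQ q) {A : Type} [CommRing A] (g : K →+* A)
    (x : A) :
    fx (fun a => g (ph q t a)) x * (1 - PowerSeries.C x * PowerSeries.X) =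
      fx (fun a => g (ph q t a)) (g q * x) * (1 - PowerSeries.C (g t * x) * PowerSeries.X) := by
  ext m
  rw [mul_sub, mul_one, map_sub, mul_sub, mul_one, map_sub, ← mul_assoc, ← mul_assoc]
  cases m with
  | zero =>
    simp [fx]
  | succ m =>
    rw [PowerSeries.coeff_succ_mul_X, PowerSeries.coeff_succ_mul_X, mul_comm (fx _ x),
      mul_comm (fx _ (g q * x)), PowerSeries.coeff_C_mul, PowerSeries.coeff_C_mul]
    unfold fx
    rw [PowerSeries.coeff_mk, PowerSeries.coeff_mk, PowerSeries.coeff_mk, PowerSeries.coeff_mk]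
    have h := congrArg g (ph_succ (t := t) hq m)
    simp only [map_mul, map_sub, map_one, map_pow] at h
    rw [mul_pow, mul_pow, pow_succ x m]
    linear_combination x ^ m * x * h

/-- uniqueness of the solution of `G(u) = G(q u) F(u)` -/
theorem uniq {A : Type} [CommRing A] (c : A) (hc : ∀ m : ℕ, 0 < m → IsUnit (1 - c ^ m))
    (F G1 G2 : PowerSeries A) (hF : PowerSeries.coeff 0 F = 1)
    (h0 : PowerSeries.coeff 0 G1 = PowerSeries.coeff 0 G2)
    (h1 : G1 = PowerSeries.rescale c G1 * F) (h2 : G2 = PowerSeries.rescale c G2 * F) :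
    G1 = G2 := by
  ext m
  induction m using Nat.strong_induction_on with
  | _ m ih =>
    rcases Nat.eq_zero_or_pos m with hm | hm
    · rw [hm]
      exact h0
    have key : ∀ G : PowerSeries A, G = PowerSeries.rescale c G * F →
        (1 - c ^ m) * PowerSeries.coeff m G =
          ∑ i ∈ range m, c ^ i * PowerSeries.coeff i G * PowerSeries.coeff (m - i) F := by
      intro G hG
      have h3 : PowerSeries.coeff m G = ∑ i ∈ range (m + 1),
          c ^ i * PowerSeries.coeff i G * PowerSeries.coeff (m - i) F := by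
        conv_lhs => rw [hG]
        rw [PowerSeries.coeff_mul, Finset.Nat.sum_antidiagonal_eq_sum_range_succ
          (fun i j => PowerSeries.coeff i (PowerSeries.rescale c G) * PowerSeries.coeff j F)]
        apply Finset.sum_congr rfl
        intro i _
        rw [PowerSeries.coeff_rescale]
      rw [Finset.sum_range_succ, Nat.sub_self, hF, mul_one] at h3
      linear_combination h3
    apply (hc m hm).mul_left_cancel
    rw [key G1 h1, key G2 h2]
    apply Finset.sum_congr rfl
    intro i hi
    rw [ih i (Finset.mem_range.1 hi)]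

end Pool.Agent.Helper25.HL
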