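import Pool.Agent.Helper25.HL.Base

/-!
# Haglund's conjecture for large `k`: row CV
-/

namespace Pool.Agent.Helper25.HL

open Finset MvPolynomial
open Pool.Agent.Helper7.HL Pool.Agent.Helper32.HG

theorem hh_zero (R : Type) [CommRing R] : hh R 0 = 1 := by
  unfold hh
  simp

/-- `H(u) SE(u) = 1` -/
theorem Hs_SE (R : Type) [CommRing R] : Hs R * SE R = 1 := by
  unfold SE
  apply PowerSeries.mul_invOfUnit
  rw [← PowerSeries.coeff_zero_eq_constantCoeff_apply]
  unfold Hs
  rw [PowerSeries.coeff_mk, hh_zero]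
  rfl

/-- the series `W(u)` -/
noncomputable def Wn {K : Type} [Field K] (q : K) : PowerSeries (Sy K) := PowerSeries.mk (gtt q)

theorem gtt_zero {K : Type} [Field K] (q : K) : gtt q 0 = 1 := by
  rw [gtt]

theorem gtt_rec {K : Type} [Field K] {q : K} (hq : GQ q) (m : ℕ) :
    gtt q m = ∑ p ∈ antidiagonal m, C (q ^ p.1) * gtt q p.1 * hh K p.2 := by
  rw [Finset.Nat.sum_antidiagonal_eq_sum_range_succ
    (fun i j => (C (q ^ i) : Sy K) * gtt q i * hh K j)]
  cases m with
  | zero =>
    rw [Finset.sum_range_one, gtt_zero, Nat.sub_self, hh_zero, pow_zero, C_1, one_mul, one_mul]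
  | succ m =>
    rw [Finset.sum_range_succ, Nat.sub_self, hh_zero, mul_one]
    have h1 : gtt q (m + 1) = C (1 - q ^ (m + 1))⁻¹ *
        ∑ i ∈ range (m + 1), C (q ^ i) * gtt q i * hh K (m + 1 - i) := by
      conv_lhs => rw [gtt]
      rw [Finset.sum_range]
    have h2 : (C (1 - q ^ (m + 1)) : Sy K) * C (1 - q ^ (m + 1))⁻¹ = 1 := by
      rw [← C_mul, mul_inv_cancel₀ (hq (m + 1) (Nat.succ_pos m)), C_1]
    have h3 : (C (1 - q ^ (m + 1)) : Sy K) = 1 - C (q ^ (m + 1)) := by
      rw [C_sub, C_1]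
    have h4 : (C (1 - q ^ (m + 1)) : Sy K) * gtt q (m + 1) =
        ∑ i ∈ range (m + 1), C (q ^ i) * gtt q i * hh K (m + 1 - i) := by
      conv_lhs => rw [h1, ← mul_assoc, h2, one_mul]
    rw [h3] at h4
    linear_combination h4

/-- `W(u) = W(q u) H(u)` -/
theorem Wn_eq {K : Type} [Field K] {q : K} (hq : GQ q) :
    Wn q = PowerSeries.rescale (C q) (Wn q) * Hs K := by
  ext m : 1
  rw [PowerSeries.coeff_mul]
  unfold Wn Hs
  rw [PowerSeries.coeff_mk]
  conv_lhs => rw [gtt_rec hq m]
  apply Finset.sum_congr rfl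
  intro p _
  rw [PowerSeries.coeff_rescale, PowerSeries.coeff_mk, PowerSeries.coeff_mk, C_pow]

/-- `W(u) SE(u) = W(q u)` -/
theorem Wn_SE {K : Type} [Field K] {q : K} (hq : GQ q) :
    Wn q * SE K = PowerSeries.rescale (C q) (Wn q) := by
  conv_lhs => rw [Wn_eq hq]
  rw [mul_assoc, Hs_SE, mul_one]

theorem X_bs {R : Type} [CommRing R] (t : R) (k : ℕ) (j : Fin k) :
    PowerSeries.X * PowerSeries.mk (bs t k j) =
      (PowerSeries.X ^ dl k j * (1 - PowerSeries.C (C t ^ dl k j) * SE R) :
        PowerSeries (Sy R)) := by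
  ext l : 1
  rw [PowerSeries.coeff_X_pow_mul']
  cases l with
  | zero =>
    rw [PowerSeries.coeff_zero_X_mul]
    split_ifs with h
    · have h0 : dl k j = 0 := by omega
      have hse : PowerSeries.coeff 0 (SE R) = 1 := by
        have h5 := congrArg (PowerSeries.coeff 0) (Hs_SE R)
        rw [PowerSeries.coeff_mul, Finset.Nat.antidiagonal_zero, Finset.sum_singleton,
          PowerSeries.coeff_zero_one] at h5
        unfold Hs at h5
        rw [PowerSeries.coeff_mk, hh_zero, one_mul] at h5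
        exact h5
      rw [h0, Nat.sub_self, map_sub, PowerSeries.coeff_C_mul, hse, pow_zero,
        PowerSeries.coeff_zero_one]
      ring
    · rfl
  | succ l =>
    rw [PowerSeries.coeff_succ_X_mul, PowerSeries.coeff_mk]
    unfold bs
    by_cases h : l + 1 < dl k j
    · rw [if_pos h, if_neg (show ¬ dl k j ≤ l + 1 by omega)]
    · rw [if_neg h, if_pos (show dl k j ≤ l + 1 by omega), map_sub, PowerSeries.coeff_C_mul,
        PowerSeries.coeff_one]
      unfold se
      by_cases h2 : l + 1 = dl k j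
      · rw [if_pos h2, if_pos (by omega)]
      · rw [if_neg h2, if_neg (by omega)]

theorem X_csf {K : Type} [Field K] (q t : K) (k : ℕ) (j : Fin k) :
    PowerSeries.X * PowerSeries.mk (csf q t k j) =
      (PowerSeries.X ^ dl k j * (Wn q - PowerSeries.C (C t ^ dl k j) *
        PowerSeries.rescale (C q) (Wn q)) : PowerSeries (Sy K)) := by
  ext l : 1
  rw [PowerSeries.coeff_X_pow_mul']
  cases l with
  | zero =>
    rw [PowerSeries.coeff_zero_X_mul]
    split_ifs with h
    · have h0 : dl k j = 0 := by omega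
      rw [h0, Nat.sub_self, map_sub, PowerSeries.coeff_C_mul, PowerSeries.coeff_rescale,
        pow_zero, pow_zero]
      ring
    · rfl
  | succ l =>
    rw [PowerSeries.coeff_succ_X_mul, PowerSeries.coeff_mk]
    unfold csf
    by_cases h : l + 1 < dl k j
    · rw [if_pos h, if_neg (show ¬ dl k j ≤ l + 1 by omega)]
    · rw [if_neg h, if_pos (show dl k j ≤ l + 1 by omega)]
      unfold Wn
      rw [map_sub (PowerSeries.coeff (l + 1 - dl k j)), PowerSeries.coeff_C_mul,
        PowerSeries.coeff_rescale, PowerSeries.coeff_mk, C_sub, C_1, C_mul, C_pow, C_pow]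
      ring

theorem st_CV : ST_CV := by
  intro K _ q t hq
  refine ⟨gtt_rec hq, ?_⟩
  intro k j b
  have h1 : Wn q * PowerSeries.mk (bs t k j) = PowerSeries.mk (csf q t k j) := by
    have h2 : PowerSeries.X * (Wn q * PowerSeries.mk (bs t k j)) =
        PowerSeries.X * PowerSeries.mk (csf q t k j) := by
      rw [X_csf, ← mul_assoc, mul_comm PowerSeries.X (Wn q), mul_assoc, X_bs, ← Wn_SE hq]
      ring
    ext n : 1
    have h3 := congrArg (PowerSeries.coeff (n + 1)) h2
    rw [PowerSeries.coeff_succ_X_mul, PowerSeries.coeff_succ_X_mul] at h3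
    exact h3
  have h4 := congrArg (PowerSeries.coeff b) h1
  rw [PowerSeries.coeff_mul, PowerSeries.coeff_mk] at h4
  rw [← h4]
  apply Finset.sum_congr rfl
  intro p _
  unfold Wn
  rw [PowerSeries.coeff_mk, PowerSeries.coeff_mk]

end Pool.Agent.Helper25.HL
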