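import Pool.Agent.Helper25.HL.SG

/-!
# Haglund's conjecture for large `k`: rows CR, NU, PH
-/

namespace Pool.Agent.Helper25.HL

open Finset MvPolynomial
open Pool.Agent.Helper7.HL Pool.Agent.Helper32.HG

/-- the series with coefficients `Gm` -/
theorem mk_Gm {K : Type} [Field K] (q t v : K) (k d : ℕ) :
    (PowerSeries.mk (Gm q t v k d) : PowerSeries (MvPolynomial (Fin k) K)) =
      PowerSeries.X ^ d * (PowerSeries.mk (gg q t k) -
        PowerSeries.C (C (v * t ^ d)) * PowerSeries.rescale (C q) (PowerSeries.mk (gg q t k))) := by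
  ext b : 1
  rw [PowerSeries.coeff_X_pow_mul', PowerSeries.coeff_mk]
  unfold Gm
  by_cases h : b < d
  · rw [if_pos h, if_neg (show ¬ d ≤ b by omega)]
  · rw [if_neg h, if_pos (show d ≤ b by omega), map_sub (PowerSeries.coeff (b - d)),
      PowerSeries.coeff_C_mul, PowerSeries.coeff_rescale, PowerSeries.coeff_mk, C_sub, C_1,
      C_mul, C_mul, C_mul, C_pow, C_pow]
    ring

/-- a polynomial evaluated at the power series variable -/
theorem sum_coeff_X {A : Type} [CommRing A] (P : Polynomial A) (n : ℕ) (hn : P.natDegree < n) :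
    ∑ b ∈ range n, PowerSeries.C (P.coeff b) * PowerSeries.X ^ b = (P : PowerSeries A) := by
  ext m
  rw [map_sum, Polynomial.coeff_coe]
  have h1 : ∀ b ∈ range n, PowerSeries.coeff m (PowerSeries.C (P.coeff b) *
      (PowerSeries.X : PowerSeries A) ^ b) = if m = b then P.coeff m else 0 := by
    intro b _
    rw [PowerSeries.coeff_C_mul, PowerSeries.coeff_X_pow]
    split_ifs with h
    · rw [h, mul_one]
    · rw [mul_zero]
  rw [Finset.sum_congr rfl h1, Finset.sum_ite_eq]
  split_ifs with h
  · rfl
  · rw [Finset.mem_range, not_lt] at h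
    exact (Polynomial.coeff_eq_zero_of_natDegree_lt (by omega)).symm

theorem sum_coeff_tX {A : Type} [CommRing A] (P : Polynomial A) (t : A) (n : ℕ)
    (hn : P.natDegree < n) :
    ∑ b ∈ range n, PowerSeries.C (P.coeff b * t ^ b) * PowerSeries.X ^ b =
      PowerSeries.rescale t (P : PowerSeries A) := by
  rw [← sum_coeff_X P n hn, map_sum]
  apply Finset.sum_congr rfl
  intro b _
  ext m
  rw [PowerSeries.coeff_rescale, PowerSeries.coeff_C_mul, PowerSeries.coeff_C_mul,
    PowerSeries.coeff_X_pow]
  split_ifs with h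
  · rw [h]
    ring
  · ring

theorem coe_prod {A : Type} [CommRing A] {ι : Type} (s : Finset ι) (a : ι → A) :
    ((∏ m ∈ s, (1 - Polynomial.C (a m) * Polynomial.X : Polynomial A) : Polynomial A) :
      PowerSeries A) = ∏ m ∈ s, (1 - PowerSeries.C (a m) * PowerSeries.X) := by
  classical
  induction s using Finset.induction_on with
  | empty =>
    rw [Finset.prod_empty, Finset.prod_empty, Polynomial.coe_one]
  | insert i s his ih =>
    rw [Finset.prod_insert his, Finset.prod_insert his, Polynomial.coe_mul, ih,
      Polynomial.coe_sub, Polynomial.coe_one, Polynomial.coe_mul, Polynomial.coe_C,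
      Polynomial.coe_X]

theorem natDegree_prod_le' {A : Type} [CommRing A] {ι : Type} (s : Finset ι) (a : ι → A) :
    (∏ m ∈ s, (1 - Polynomial.C (a m) * Polynomial.X : Polynomial A)).natDegree ≤ s.card := by
  refine (Polynomial.natDegree_prod_le _ _).trans ?_
  have h : ∀ m ∈ s, (1 - Polynomial.C (a m) * Polynomial.X : Polynomial A).natDegree ≤ 1 := by
    intro m _
    refine (Polynomial.natDegree_sub_le _ _).trans ?_
    rw [Polynomial.natDegree_one]
    exact max_le (Nat.zero_le _) ((Polynomial.natDegree_C_mul_le _ _).trans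
      Polynomial.natDegree_X_le)
  refine (Finset.sum_le_sum h).trans ?_
  simp

theorem rescale_prod_lin {A : Type} [CommRing A] {ι : Type} (s : Finset ι) (t : A) (a : ι → A) :
    PowerSeries.rescale t (∏ m ∈ s, (1 - PowerSeries.C (a m) * PowerSeries.X)) =
      ∏ m ∈ s, (1 - PowerSeries.C (t * a m) * PowerSeries.X) := by
  rw [map_prod]
  exact Finset.prod_congr rfl fun i _ => rescale_lin t (a i)

/-- the sum of the series `Gm` with the coefficients of a product of linear factors -/
theorem sum_Gm {K : Type} [Field K] (q t : K) (k n : ℕ) (s : Finset (Fin k)) (hn : s.card < n) :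
    ∑ b ∈ range n, PowerSeries.C (Polynomial.coeff (∏ m ∈ s, (1 - Polynomial.C (X m) *
      Polynomial.X : Polynomial (MvPolynomial (Fin k) K))) b) *
        PowerSeries.mk (Gm q t 1 k b) =
    (∏ m ∈ s, (1 - PowerSeries.C (X m) * PowerSeries.X)) * PowerSeries.mk (gg q t k) -
      (∏ m ∈ s, (1 - PowerSeries.C (C t * X m) * PowerSeries.X)) *
        PowerSeries.rescale (C q) (PowerSeries.mk (gg q t k)) := by
  set P : Polynomial (MvPolynomial (Fin k) K) := ∏ m ∈ s, (1 - Polynomial.C (X m) *
      Polynomial.X : Polynomial (MvPolynomial (Fin k) K)) with hP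
  have hdeg : P.natDegree < n := lt_of_le_of_lt (natDegree_prod_le' s _) hn
  have h1 := sum_coeff_X P n hdeg
  have h2 := sum_coeff_tX P (C t) n hdeg
  have h3 : (P : PowerSeries (MvPolynomial (Fin k) K)) =
    ∏ m ∈ s, (1 - PowerSeries.C (X m) * PowerSeries.X) := coe_prod s _
  have h4 := rescale_prod_lin s (C t) (fun m : Fin k => (X m : MvPolynomial (Fin k) K))
  rw [h3] at h1 h2
  rw [h4] at h2
  rw [← h1, ← h2, Finset.sum_mul, Finset.sum_mul, ← Finset.sum_sub_distrib]
  apply Finset.sum_congr rfl
  intro b _
  rw [mk_Gm, one_mul, map_mul PowerSeries.C, C_pow]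
  ring

theorem st_CR : ST_CR := by
  intro K _ q t hq k a
  have h1 := sum_Gm q t k (k + 1) (univ : Finset (Fin k)) (by simp)
  have h2 : (∏ m : Fin k, (1 - PowerSeries.C (X m) * PowerSeries.X)) *
      PowerSeries.mk (gg q t k) -
      (∏ m : Fin k, (1 - PowerSeries.C (C t * X m) * PowerSeries.X)) *
        PowerSeries.rescale (C q) (PowerSeries.mk (gg q t k)) = 0 := by
    have h3 := gg_eq (t := t) hq k
    linear_combination h3
  rw [h2] at h1
  have h3 := congrArg (PowerSeries.coeff a) h1
  rw [map_sum, map_zero] at h3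
  rw [← h3]
  apply Finset.sum_congr rfl
  intro b _
  rw [PowerSeries.coeff_C_mul, PowerSeries.coeff_mk]

theorem st_NU : ST_NU := by
  intro K _ q t hq k b l
  have hk : 0 < k := l.pos
  have hcard : (univ.erase l : Finset (Fin k)).card < k := by
    rw [Finset.card_erase_of_mem (Finset.mem_univ l), Finset.card_univ, Fintype.card_fin]
    omega
  have h1 := sum_Gm q t k k (univ.erase l) hcard
  -- the left side
  have hL : ∑ j, Emat k K j l * Gm q t 1 k (dl k j) b =
      PowerSeries.coeff b (∑ d ∈ range k, PowerSeries.C (Polynomial.coeff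
        (∏ m ∈ univ.erase l, (1 - Polynomial.C (X m) *
        Polynomial.X : Polynomial (MvPolynomial (Fin k) K))) d) *
        PowerSeries.mk (Gm q t 1 k d)) := by
    rw [map_sum, Finset.sum_range]
    refine Fintype.sum_equiv Fin.revPerm _ _ ?_
    intro j
    rw [PowerSeries.coeff_C_mul, PowerSeries.coeff_mk]
    have h2 : dl k j = (Fin.revPerm j).val := by
      unfold dl
      rw [Fin.revPerm_apply, Fin.val_rev]
      have := j.isLt
      omega
    unfold Emat
    rw [Matrix.of_apply, h2]
  rw [hL, h1]
  -- the right side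
  have hR : (∑ d ∈ piAntidiag (univ : Finset (Fin k)) b,
      monomial (ex d) (∏ m, if m = l then (1 - q ^ (d m)) * ph q t (d m) else pp q t (d m))) =
      PowerSeries.coeff b (∏ m : Fin k, fx (fun a => (C (if m = l then (1 - q ^ a) * ph q t a
        else pp q t a) : MvPolynomial (Fin k) K)) (X m)) := by
    rw [← mk_gen (fun m a => if m = l then (1 - q ^ a) * ph q t a else pp q t a),
      PowerSeries.coeff_mk]
  rw [hR]
  congr 1
  have hPhi : (PowerSeries.mk (gg q t k) : PowerSeries (MvPolynomial (Fin k) K)) =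
      ∏ i : Fin k, fx (fun a => (C (ph q t a) : MvPolynomial (Fin k) K)) (X i) :=
    mk_gw (ph q t) k
  have hPhiq : PowerSeries.rescale (C q) (PowerSeries.mk (gg q t k) :
      PowerSeries (MvPolynomial (Fin k) K)) =
      ∏ i : Fin k, fx (fun a => (C (ph q t a) : MvPolynomial (Fin k) K)) (C q * X i) := by
    rw [hPhi, map_prod]
    exact Finset.prod_congr rfl fun i _ => rescale_fx _ _ _
  rw [hPhiq, hPhi]
  rw [← Finset.mul_prod_erase univ (fun i : Fin k =>
      fx (fun a => (C (ph q t a) : MvPolynomial (Fin k) K)) (X i)) (Finset.mem_univ l),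
    ← Finset.mul_prod_erase univ (fun i : Fin k =>
      fx (fun a => (C (ph q t a) : MvPolynomial (Fin k) K)) (C q * X i)) (Finset.mem_univ l),
    ← Finset.mul_prod_erase univ (fun m : Fin k => fx (fun a => (C (if m = l then
      (1 - q ^ a) * ph q t a else pp q t a) : MvPolynomial (Fin k) K)) (X m))
      (Finset.mem_univ l)]
  have hA : (∏ m ∈ univ.erase l, (1 - PowerSeries.C (X m : MvPolynomial (Fin k) K) *
      PowerSeries.X)) * ∏ m ∈ univ.erase l,
        fx (fun a => (C (ph q t a) : MvPolynomial (Fin k) K)) (X m) =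
      ∏ m ∈ univ.erase l, fx (fun a => (C (if m = l then
      (1 - q ^ a) * ph q t a else pp q t a) : MvPolynomial (Fin k) K)) (X m) := by
    rw [← Finset.prod_mul_distrib]
    apply Finset.prod_congr rfl
    intro m hm
    have hml : m ≠ l := Finset.ne_of_mem_erase hm
    ext n
    rw [mul_comm, mul_sub, mul_one, map_sub, ← mul_assoc]
    cases n with
    | zero =>
      rw [PowerSeries.coeff_zero_mul_X]
      unfold fx pp
      rw [PowerSeries.coeff_mk, PowerSeries.coeff_mk]
      dsimp only
      rw [if_neg hml, if_pos rfl, ph_zero, sub_zero]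
    | succ n =>
      rw [PowerSeries.coeff_succ_mul_X, mul_comm (fx _ _), PowerSeries.coeff_C_mul]
      unfold fx pp
      rw [PowerSeries.coeff_mk, PowerSeries.coeff_mk, PowerSeries.coeff_mk]
      dsimp only
      rw [if_neg hml, if_neg (Nat.succ_ne_zero n), Nat.add_sub_cancel, C_sub, pow_succ]
      ring
  have hB : (∏ m ∈ univ.erase l, (1 - PowerSeries.C (C t * X m : MvPolynomial (Fin k) K) *
      PowerSeries.X)) * ∏ m ∈ univ.erase l,
        fx (fun a => (C (ph q t a) : MvPolynomial (Fin k) K)) (C q * X m) =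
      (∏ m ∈ univ.erase l, (1 - PowerSeries.C (X m : MvPolynomial (Fin k) K) *
      PowerSeries.X)) * ∏ m ∈ univ.erase l,
        fx (fun a => (C (ph q t a) : MvPolynomial (Fin k) K)) (X m) := by
    rw [← Finset.prod_mul_distrib, ← Finset.prod_mul_distrib]
    apply Finset.prod_congr rfl
    intro m _
    have h := fx_ph (t := t) hq (C : K →+* MvPolynomial (Fin k) K) (X m)
    linear_combination -h
  have hl : fx (fun a => (C (if l = l then (1 - q ^ a) * ph q t a else pp q t a) :
      MvPolynomial (Fin k) K)) (X l) =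
      fx (fun a => (C (ph q t a) : MvPolynomial (Fin k) K)) (X l) -
        fx (fun a => (C (ph q t a) : MvPolynomial (Fin k) K)) (C q * X l) := by
    ext n
    rw [map_sub]
    unfold fx
    rw [PowerSeries.coeff_mk, PowerSeries.coeff_mk, PowerSeries.coeff_mk]
    dsimp only
    rw [if_pos rfl, C_mul, C_sub, C_1, C_pow, mul_pow]
    ring
  rw [hl, ← hA]
  linear_combination -(fx (fun a => (C (ph q t a) : MvPolynomial (Fin k) K)) (C q * X l)) * hB

theorem st_PH : ST_PH := by
  intro K _ q t hq m
  -- `phi`, `theta phi`, `psi`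
  set φ : PowerSeries K := PowerSeries.mk (ph q t) with hφ
  set ψ : PowerSeries K := PowerSeries.mk (fun j => if j = 0 then 0 else om q t j) with hψ
  set D : PowerSeries K := PowerSeries.mk (fun m => (m : K) * ph q t m) - ψ * φ with hD
  set P1 : PowerSeries K := PowerSeries.mk (fun j => if j = 0 then 0 else 1) with hP1
  set P2 : PowerSeries K := PowerSeries.mk (fun j => if j = 0 then 0 else t ^ j) with hP2
  have h1 : P1 * (1 - PowerSeries.X) = PowerSeries.X := by
    ext n
    rw [mul_sub, mul_one, map_sub]
    cases n with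
    | zero =>
      rw [PowerSeries.coeff_zero_mul_X, hP1, PowerSeries.coeff_mk, if_pos rfl,
        PowerSeries.coeff_zero_X, sub_zero]
    | succ n =>
      rw [PowerSeries.coeff_succ_mul_X, hP1, PowerSeries.coeff_mk, PowerSeries.coeff_mk,
        if_neg (Nat.succ_ne_zero n), PowerSeries.coeff_X]
      by_cases hn : n = 0
      · rw [if_pos hn, hn, if_pos rfl, sub_zero]
      · rw [if_neg hn, if_neg (by omega), sub_self]
  have h2 : P2 * (1 - PowerSeries.C t * PowerSeries.X) = PowerSeries.C t * PowerSeries.X := by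
    ext n
    rw [mul_sub, mul_one, map_sub, ← mul_assoc]
    cases n with
    | zero =>
      rw [PowerSeries.coeff_zero_mul_X, PowerSeries.coeff_zero_mul_X, hP2,
        PowerSeries.coeff_mk, if_pos rfl, sub_zero]
    | succ n =>
      rw [PowerSeries.coeff_succ_mul_X, PowerSeries.coeff_succ_mul_X, mul_comm P2,
        PowerSeries.coeff_C_mul, hP2, PowerSeries.coeff_mk, PowerSeries.coeff_mk,
        if_neg (Nat.succ_ne_zero n), PowerSeries.coeff_C]
      by_cases hn : n = 0
      · rw [if_pos hn, if_pos hn, hn]
        ring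
      · rw [if_neg hn, if_neg hn]
        ring
  have h3 : φ * (1 - PowerSeries.X) =
      PowerSeries.rescale q φ * (1 - PowerSeries.C t * PowerSeries.X) := by
    have h := fx_ph (t := t) hq (RingHom.id K) 1
    have h4 : ∀ x : K, fx (fun a => (RingHom.id K) (ph q t a)) x = PowerSeries.rescale x φ := by
      intro x
      ext n
      rw [PowerSeries.coeff_rescale, hφ, PowerSeries.coeff_mk]
      unfold fx
      rw [PowerSeries.coeff_mk]
      dsimp only
      rw [RingHom.id_apply]
      ring
    rw [h4, h4, PowerSeries.rescale_one, RingHom.id_apply, RingHom.id_apply, mul_one, mul_one,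
      map_one, one_mul] at h
    exact h
  have h4 : ψ - PowerSeries.rescale q ψ = P1 - P2 := by
    ext n
    rw [map_sub, map_sub, PowerSeries.coeff_rescale, hψ, hP1, hP2, PowerSeries.coeff_mk,
      PowerSeries.coeff_mk, PowerSeries.coeff_mk]
    by_cases hn : n = 0
    · rw [if_pos hn, if_pos hn, if_pos hn]
      ring
    · rw [if_neg hn, if_neg hn, if_neg hn]
      have h5 := hq n (Nat.pos_of_ne_zero hn)
      unfold om
      field_simp
  -- `theta`
  set T : PowerSeries K := PowerSeries.mk (fun m => (m : K) * ph q t m) with hT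
  have h5 : T * (1 - PowerSeries.X) - PowerSeries.X * φ =
      PowerSeries.rescale q T * (1 - PowerSeries.C t * PowerSeries.X) -
        PowerSeries.C t * PowerSeries.X * PowerSeries.rescale q φ := by
    ext n
    rw [mul_sub, mul_sub, mul_one, mul_one, map_sub, map_sub, map_sub, map_sub, mul_assoc,
      PowerSeries.coeff_C_mul, ← mul_assoc (PowerSeries.rescale q T),
      mul_comm (PowerSeries.rescale q T) (PowerSeries.C t), mul_assoc (PowerSeries.C t),
      PowerSeries.coeff_C_mul]
    cases n with
    | zero =>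
      rw [PowerSeries.coeff_zero_mul_X, PowerSeries.coeff_zero_X_mul,
        PowerSeries.coeff_zero_mul_X, PowerSeries.coeff_zero_X_mul, PowerSeries.coeff_rescale]
      ring
    | succ n =>
      rw [PowerSeries.coeff_succ_mul_X, PowerSeries.coeff_succ_X_mul,
        PowerSeries.coeff_succ_mul_X, PowerSeries.coeff_succ_X_mul, PowerSeries.coeff_rescale,
        PowerSeries.coeff_rescale, PowerSeries.coeff_rescale, hT, hφ, PowerSeries.coeff_mk,
        PowerSeries.coeff_mk, PowerSeries.coeff_mk]
      have h6 := ph_succ (t := t) hq n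
      push_cast
      linear_combination ((n : K) + 1) * h6
  have h6 : D * (1 - PowerSeries.X) =
      PowerSeries.rescale q D * (1 - PowerSeries.C t * PowerSeries.X) := by
    rw [hD, map_sub, map_mul]
    linear_combination h5 - (PowerSeries.rescale q ψ) * h3 - φ * (1 - PowerSeries.X) * h4 -
      φ * h1 + PowerSeries.rescale q φ * h2 + P2 * h3
  have h60 : PowerSeries.coeff 0 D = 0 := by
    rw [hD, map_sub, coeff_zero_mul', hT, hψ, PowerSeries.coeff_mk, PowerSeries.coeff_mk,
      if_pos rfl]
    push_cast
    ring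
  clear_value D
  have h7 : ∀ n, PowerSeries.coeff n D = 0 := by
    intro n
    induction n with
    | zero => exact h60
    | succ n ih =>
      have h8 := congrArg (PowerSeries.coeff (n + 1)) h6
      rw [mul_sub, mul_sub, mul_one, mul_one, map_sub, map_sub, ← mul_assoc,
        PowerSeries.coeff_succ_mul_X, PowerSeries.coeff_succ_mul_X,
        mul_comm (PowerSeries.rescale q D), PowerSeries.coeff_C_mul, PowerSeries.coeff_rescale,
        PowerSeries.coeff_rescale, ih] at h8
      have h9 := hq (n + 1) (Nat.succ_pos n)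
      have h10 : (1 - q ^ (n + 1)) * PowerSeries.coeff (n + 1) D = 0 := by
        linear_combination h8
      exact (mul_eq_zero.1 h10).resolve_left h9
  have h8 := h7 m
  rw [hD, map_sub, sub_eq_zero, hT, PowerSeries.coeff_mk] at h8
  rw [h8, PowerSeries.coeff_mul, Finset.Nat.sum_antidiagonal_eq_sum_range_succ
    (fun i j => PowerSeries.coeff i ψ * PowerSeries.coeff j φ), Finset.sum_range_succ']
  have h9 : PowerSeries.coeff 0 ψ = 0 := by
    rw [hψ, PowerSeries.coeff_mk, if_pos rfl]
  rw [h9, zero_mul, add_zero]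
  apply Finset.sum_congr rfl
  intro j _
  rw [hψ, hφ, PowerSeries.coeff_mk, PowerSeries.coeff_mk, if_neg (Nat.succ_ne_zero j)]

end Pool.Agent.Helper25.HL
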