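import Pool.Agent.Helper25.HL.CV

/-!
# Haglund's conjecture for large `k`: rows SG, GTG
-/

namespace Pool.Agent.Helper25.HL

open Finset MvPolynomial
open Pool.Agent.Helper7.HL Pool.Agent.Helper32.HG

/-- the substitution on the series `H(u)` -/
theorem sbt_Hs (R : Type) [CommRing R] {A : Type} [CommRing A] [Algebra R A]
    (F : PowerSeries A) (hF : PowerSeries.coeff 0 F = 1) :
    PowerSeries.map (sbt R F : Sy R →ₐ[R] A).toRingHom (Hs R) = F := by
  ext m
  rw [PowerSeries.coeff_map]
  unfold Hs
  rw [PowerSeries.coeff_mk]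
  unfold hh
  split_ifs with h
  · rw [map_one, h, hF]
  · unfold sbt
    change aeval _ (X (m - 1)) = _
    rw [aeval_X, Nat.sub_add_cancel (Nat.one_le_iff_ne_zero.2 h)]

theorem map_rescale' {A B : Type} [CommRing A] [CommRing B] (g : A →+* B) (a : A)
    (F : PowerSeries A) :
    PowerSeries.map g (PowerSeries.rescale a F) =
      PowerSeries.rescale (g a) (PowerSeries.map g F) := by
  ext m
  rw [PowerSeries.coeff_map, PowerSeries.coeff_rescale, PowerSeries.coeff_rescale,
    PowerSeries.coeff_map, map_mul, map_pow]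

theorem unit_gq {K : Type} [Field K] {q : K} (hq : GQ q) {A : Type} [CommRing A]
    (g : K →+* A) (m : ℕ) (hm : 0 < m) : IsUnit (1 - g q ^ m) := by
  have h : (1 - g q ^ m) = g (1 - q ^ m) := by
    rw [map_sub, map_one, map_pow]
  rw [h]
  exact (isUnit_iff_ne_zero.2 (hq m hm)).map g

theorem coeff_zero_Hs (R : Type) [CommRing R] : PowerSeries.coeff 0 (Hs R) = 1 := by
  unfold Hs
  rw [PowerSeries.coeff_mk, hh_zero]

theorem coeff_zero_mul' {A : Type} [CommRing A] (F G : PowerSeries A) :
    PowerSeries.coeff 0 (F * G) = PowerSeries.coeff 0 F * PowerSeries.coeff 0 G := by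
  rw [PowerSeries.coeff_mul, Finset.Nat.antidiagonal_zero, Finset.sum_singleton]

theorem coeff_zero_SE (R : Type) [CommRing R] : PowerSeries.coeff 0 (SE R) = 1 := by
  have h5 := congrArg (PowerSeries.coeff 0) (Hs_SE R)
  rw [coeff_zero_mul', PowerSeries.coeff_zero_one, coeff_zero_Hs, one_mul] at h5
  exact h5

theorem hk_zero (N : ℕ) (S : Type) [CommRing S] : hk N S 0 = 1 := by
  unfold hk
  rw [Finset.piAntidiag_zero, Finset.sum_singleton]
  have h : Finsupp.equivFunOnFinite.symm (0 : Fin N → ℕ) = 0 := by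
    ext i
    rfl
  rw [h]
  rfl

theorem coeff_zero_hk (N : ℕ) (S : Type) [CommRing S] :
    PowerSeries.coeff 0 (PowerSeries.mk (hk N S)) = 1 := by
  rw [PowerSeries.coeff_mk, hk_zero]

theorem coeff_zero_prod {A : Type} [CommRing A] {ι : Type} (s : Finset ι) (a : ι → A) :
    PowerSeries.coeff 0 (∏ i ∈ s, (1 - PowerSeries.C (a i) * PowerSeries.X)) = 1 := by
  classical
  induction s using Finset.induction_on with
  | empty => rw [Finset.prod_empty, PowerSeries.coeff_zero_one]
  | insert i s his ih =>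
    rw [Finset.prod_insert his, coeff_zero_mul', ih, mul_one, map_sub,
      PowerSeries.coeff_zero_one, PowerSeries.coeff_C_mul, PowerSeries.coeff_zero_X, mul_zero,
      sub_zero]

theorem coeff_zero_map {A B : Type} [CommRing A] [CommRing B] (g : A →+* B)
    (F : PowerSeries A) :
    PowerSeries.coeff 0 (PowerSeries.map g F) = g (PowerSeries.coeff 0 F) := by
  rw [PowerSeries.coeff_map]

theorem coeff_zero_Wn {K : Type} [Field K] (q : K) : PowerSeries.coeff 0 (Wn q) = 1 := by
  unfold Wn
  rw [PowerSeries.coeff_mk, gtt_zero]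

theorem rescale_lin {A : Type} [CommRing A] (a x : A) :
    PowerSeries.rescale a (1 - PowerSeries.C x * PowerSeries.X) =
      1 - PowerSeries.C (a * x) * PowerSeries.X := by
  ext m
  rw [PowerSeries.coeff_rescale, map_sub, map_sub, mul_sub]
  cases m with
  | zero =>
    rw [PowerSeries.coeff_zero_mul_X, PowerSeries.coeff_zero_mul_X, pow_zero, one_mul, mul_zero]
  | succ m =>
    rw [PowerSeries.coeff_succ_mul_X, PowerSeries.coeff_succ_mul_X, PowerSeries.coeff_C,
      PowerSeries.coeff_C, PowerSeries.coeff_one, if_neg (Nat.succ_ne_zero m)]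
    split_ifs with h
    · rw [h, mul_zero, zero_add, pow_one]
    · rw [mul_zero]

/-- `Hk(q u) prod (1 - q x_i u) = 1` -/
theorem hk_mul_rescale {S : Type} [CommRing S] (N : ℕ) (a : MvPolynomial (Fin N) S) :
    PowerSeries.rescale a (PowerSeries.mk (hk N S) : PowerSeries (MvPolynomial (Fin N) S)) *
      ∏ i : Fin N, (1 - PowerSeries.C (a * X i) * PowerSeries.X) = 1 := by
  have h := congrArg (PowerSeries.rescale a) (hk_mul (S := S) N)
  rw [map_mul, map_one, map_prod] at h
  have h2 : ∏ i : Fin N, (1 - PowerSeries.C (a * X i) * PowerSeries.X) =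
      ∏ i : Fin N, PowerSeries.rescale a (1 - PowerSeries.C (X i) * PowerSeries.X) :=
    Finset.prod_congr rfl fun i _ => (rescale_lin a (X i)).symm
  rw [h2]
  exact h

theorem st_SG : ST_SG := by
  intro K _ q hq k m
  have hchi0 : PowerSeries.coeff 0 (chi q k) = 1 := by
    unfold chi
    rw [coeff_zero_mul', coeff_zero_hk, coeff_zero_prod, one_mul]
  have hF0 : PowerSeries.coeff 0
      (PowerSeries.map (C : Sy K →+* MvPolynomial (Fin k) (Sy K)) (Hs K) * chi q k) = 1 := by
    rw [coeff_zero_mul', hchi0, coeff_zero_map, coeff_zero_Hs, map_one, mul_one]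
  have hs : PowerSeries.map (shf q k).toRingHom (Hs K) =
      PowerSeries.map (C : Sy K →+* MvPolynomial (Fin k) (Sy K)) (Hs K) * chi q k :=
    sbt_Hs K _ hF0
  have hsq : (shf q k).toRingHom (C q) = C (C q) := by
    have h1 := (shf q k).commutes q
    exact h1
  have key : PowerSeries.map (shf q k).toRingHom (Wn q) =
      PowerSeries.map (C : Sy K →+* MvPolynomial (Fin k) (Sy K)) (Wn q) *
        PowerSeries.mk (hk k (Sy K)) := by
    apply uniq (C (C q)) (unit_gq hq ((C : Sy K →+* MvPolynomial (Fin k) (Sy K)).comp C))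
      (PowerSeries.map (C : Sy K →+* MvPolynomial (Fin k) (Sy K)) (Hs K) * chi q k) _ _ hF0
    · rw [coeff_zero_mul', coeff_zero_hk, coeff_zero_map, coeff_zero_map, coeff_zero_Wn,
        map_one, map_one, mul_one]
    · conv_lhs => rw [Wn_eq hq]
      rw [map_mul, hs, map_rescale', hsq]
    · rw [map_mul, chi]
      have h1 := map_rescale' (C : Sy K →+* MvPolynomial (Fin k) (Sy K)) (C q) (Wn q)
      have h2 := congrArg (PowerSeries.map (C : Sy K →+* MvPolynomial (Fin k) (Sy K)))
        (Wn_eq hq)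
      rw [map_mul, h1] at h2
      have h3 := hk_mul_rescale (S := Sy K) k (C (C q))
      linear_combination (PowerSeries.mk (hk k (Sy K))) * h2 -
        PowerSeries.rescale (C (C q)) (PowerSeries.map (C : Sy K →+* MvPolynomial (Fin k) (Sy K))
          (Wn q)) * PowerSeries.map (C : Sy K →+* MvPolynomial (Fin k) (Sy K)) (Hs K) *
          PowerSeries.mk (hk k (Sy K)) * h3
  have h4 := congrArg (PowerSeries.coeff m) key
  rw [PowerSeries.coeff_map, PowerSeries.coeff_mul] at h4
  unfold Wn at h4
  rw [PowerSeries.coeff_mk] at h4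
  rw [show shf q k (gtt q m) = (shf q k).toRingHom (gtt q m) from rfl, h4]
  apply Finset.sum_congr rfl
  intro p _
  rw [PowerSeries.coeff_map, PowerSeries.coeff_mk, PowerSeries.coeff_mk]

/-- `Phi(u) prod (1 - x_i u) = Phi(q u) prod (1 - t x_i u)` -/
theorem gg_eq {K : Type} [Field K] {q t : K} (hq : GQ q) (N : ℕ) :
    (PowerSeries.mk (gg q t N) : PowerSeries (MvPolynomial (Fin N) K)) *
      ∏ i : Fin N, (1 - PowerSeries.C (X i) * PowerSeries.X) =
    PowerSeries.rescale (C q) (PowerSeries.mk (gg q t N)) *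
      ∏ i : Fin N, (1 - PowerSeries.C (C t * X i) * PowerSeries.X) := by
  have h1 : (PowerSeries.mk (gg q t N) : PowerSeries (MvPolynomial (Fin N) K)) =
      ∏ i : Fin N, fx (fun a => (C (ph q t a) : MvPolynomial (Fin N) K)) (X i) :=
    mk_gw (ph q t) N
  rw [h1, map_prod, ← Finset.prod_mul_distrib, ← Finset.prod_mul_distrib]
  apply Finset.prod_congr rfl
  intro i _
  rw [rescale_fx]
  exact fx_ph hq (C : K →+* MvPolynomial (Fin N) K) (X i)

theorem gg_zero {K : Type} [Field K] (q t : K) (N : ℕ) : gg q t N 0 = 1 := by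
  unfold gg gw
  rw [Finset.piAntidiag_zero, Finset.sum_singleton]
  have h : ∏ i : Fin N, ph q t ((0 : Fin N → ℕ) i) = 1 :=
    Finset.prod_eq_one fun i _ => ph_zero q t
  have h2 : ex (0 : Fin N → ℕ) = 0 := by
    ext i
    rfl
  rw [h, h2]
  rfl

theorem st_GTG : ST_GTG := by
  intro K _ q t hq N m
  set θ : Sy K →+* MvPolynomial (Fin N) K := (ev K N).toRingHom.comp (ptm t).toRingHom with hθ
  have hev : PowerSeries.map (ev K N).toRingHom (Hs K) = PowerSeries.mk (hk N K) :=
    sbt_Hs K _ (coeff_zero_hk N K)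
  have hevq : ∀ a : K, (ev K N).toRingHom (C a) = C a := fun a => (ev K N).commutes a
  have hptq : ∀ a : K, (ptm t).toRingHom (C a) = C a := fun a => (ptm t).commutes a
  have hpt0 : PowerSeries.coeff 0 (Hs K * PowerSeries.rescale (C t) (SE K)) = 1 := by
    rw [coeff_zero_mul', coeff_zero_Hs, PowerSeries.coeff_rescale, coeff_zero_SE, pow_zero,
      one_mul, one_mul]
  have hpt : PowerSeries.map (ptm t).toRingHom (Hs K) =
      Hs K * PowerSeries.rescale (C t) (SE K) := sbt_Hs K _ hpt0
  -- the image of `1 / H`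
  have hse : PowerSeries.map (ev K N).toRingHom (SE K) =
      ∏ i : Fin N, (1 - PowerSeries.C (X i) * PowerSeries.X) := by
    have h1 := congrArg (PowerSeries.map (ev K N).toRingHom) (Hs_SE K)
    rw [map_mul, map_one, hev] at h1
    have h2 := hk_mul (S := K) N
    linear_combination (∏ i : Fin N, (1 - PowerSeries.C (X i : MvPolynomial (Fin N) K) *
      PowerSeries.X)) * h1 - (PowerSeries.map (ev K N).toRingHom (SE K)) * h2
  have hset : PowerSeries.map (ev K N).toRingHom (PowerSeries.rescale (C t) (SE K)) =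
      ∏ i : Fin N, (1 - PowerSeries.C (C t * X i) * PowerSeries.X) := by
    rw [map_rescale', hse, hevq, map_prod]
    exact Finset.prod_congr rfl fun i _ => rescale_lin (C t) (X i)
  have hmapcomp : ∀ F : PowerSeries (Sy K), PowerSeries.map θ F =
      PowerSeries.map (ev K N).toRingHom (PowerSeries.map (ptm t).toRingHom F) := by
    intro F
    ext n
    rw [PowerSeries.coeff_map, PowerSeries.coeff_map, PowerSeries.coeff_map]
    rfl
  have hH : PowerSeries.map θ (Hs K) = PowerSeries.mk (hk N K) *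
      ∏ i : Fin N, (1 - PowerSeries.C (C t * X i) * PowerSeries.X) := by
    rw [hmapcomp, hpt, map_mul, hev, hset]
  have hH0 : PowerSeries.coeff 0 (PowerSeries.mk (hk N K) *
      ∏ i : Fin N, (1 - PowerSeries.C (C t * X i) * PowerSeries.X)) = 1 := by
    rw [coeff_zero_mul', coeff_zero_hk, coeff_zero_prod, one_mul]
  have hθq : θ (C q) = C q := by
    rw [hθ, RingHom.comp_apply, hptq, hevq]
  have key : PowerSeries.map θ (Wn q) = PowerSeries.mk (gg q t N) := by
    apply uniq (C q) (unit_gq hq (C : K →+* MvPolynomial (Fin N) K))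
      (PowerSeries.mk (hk N K) *
        ∏ i : Fin N, (1 - PowerSeries.C (C t * X i) * PowerSeries.X)) _ _ hH0
    · rw [coeff_zero_map, coeff_zero_Wn, map_one, PowerSeries.coeff_mk, gg_zero]
    · conv_lhs => rw [Wn_eq hq]
      rw [map_mul, hH, map_rescale', hθq]
    · have h1 := gg_eq (t := t) hq N
      have h2 := hk_mul (S := K) N
      linear_combination (PowerSeries.mk (hk N K)) * h1 - (PowerSeries.mk (gg q t N)) * h2
  have h4 := congrArg (PowerSeries.coeff m) key
  rw [PowerSeries.coeff_map, PowerSeries.coeff_mk] at h4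
  unfold Wn at h4
  rw [PowerSeries.coeff_mk] at h4
  exact h4

end Pool.Agent.Helper25.HL
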