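import Pool.Agent.Helper25.HL.NU

/-!
# Haglund's conjecture for large `k`: rows SYM, GD
-/

namespace Pool.Agent.Helper25.HL

open Finset MvPolynomial
open Pool.Agent.Helper7.HL Pool.Agent.Helper32.HG

theorem coeff_prod_gw {S : Type} [CommRing S] (c : ℕ → S) (M N : ℕ) (α : Fin M → ℕ)
    (γ : Fin N → ℕ) : coeff (ex γ) (∏ i, gw c N (α i)) =
      ∑ d ∈ (Fintype.piFinset (fun i : Fin M =>
        piAntidiag (univ : Finset (Fin N)) (α i))).filter (fun d => ∀ l, ∑ i, d i l = γ l),
        ∏ i, ∏ l, c (d i l) := by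
  classical
  unfold gw
  rw [Finset.prod_univ_sum, coeff_sum, Finset.sum_filter]
  apply Finset.sum_congr rfl
  intro d _
  have h1 : ∏ i, (monomial (ex (d i)) (∏ l, c (d i l)) : MvPolynomial (Fin N) S) =
      monomial (∑ i, ex (d i)) (∏ i, ∏ l, c (d i l)) := by
    have h2 : ∀ s : Finset (Fin M),
        ∏ i ∈ s, (monomial (ex (d i)) (∏ l, c (d i l)) : MvPolynomial (Fin N) S) =
        monomial (∑ i ∈ s, ex (d i)) (∏ i ∈ s, ∏ l, c (d i l)) := by
      intro s
      induction s using Finset.induction_on with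
      | empty =>
        rw [Finset.prod_empty, Finset.sum_empty, Finset.prod_empty]
        rfl
      | insert i s his ih =>
        rw [Finset.prod_insert his, Finset.sum_insert his, Finset.prod_insert his, ih,
          monomial_mul]
    exact h2 univ
  rw [h1, coeff_monomial]
  have h3 : (∑ i, ex (d i) = ex γ) ↔ ∀ l, ∑ i, d i l = γ l := by
    constructor
    · intro h l
      have h4 := DFunLike.congr_fun h l
      rw [Finsupp.finsetSum_apply] at h4
      exact h4
    · intro h
      ext l
      rw [Finsupp.finsetSum_apply]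
      exact h l
  by_cases h : ∀ l, ∑ i, d i l = γ l
  · rw [if_pos (h3.2 h), if_pos h]
  · rw [if_neg (fun h5 => h (h3.1 h5)), if_neg h]

theorem st_SYM : ST_SYM := by
  intro S _ c M N α γ
  rw [coeff_prod_gw, coeff_prod_gw]
  refine Finset.sum_bij' (fun d _ => fun l i => d i l) (fun d _ => fun i l => d l i) ?_ ?_ ?_ ?_
    ?_
  · intro d hd
    rw [Finset.mem_filter, Fintype.mem_piFinset] at hd ⊢
    refine ⟨fun l => ?_, fun i => ?_⟩
    · rw [Finset.mem_piAntidiag]
      exact ⟨hd.2 l, by simp⟩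
    · have h := hd.1 i
      rw [Finset.mem_piAntidiag] at h
      exact h.1
  · intro d hd
    rw [Finset.mem_filter, Fintype.mem_piFinset] at hd ⊢
    refine ⟨fun l => ?_, fun i => ?_⟩
    · rw [Finset.mem_piAntidiag]
      exact ⟨hd.2 l, by simp⟩
    · have h := hd.1 i
      rw [Finset.mem_piAntidiag] at h
      exact h.1
  · intro d _
    rfl
  · intro d _
    rfl
  · intro d _
    exact Finset.prod_comm

theorem st_GD (hDC : ST_DC) : ST_GD := by
  intro K _ q t v k N α β
  rw [(hDC N K q t v).1 β, Matrix.det_apply', coeff_sum]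
  apply Finset.sum_congr rfl
  intro σ _
  have h0 : ∀ p : MvPolynomial (Fin k) K, coeff (ex α)
      (((Equiv.Perm.sign σ : ℤ) : MvPolynomial (Fin k) K) * p) =
      ((Equiv.Perm.sign σ : ℤ) : K) * coeff (ex α) p := by
    intro p
    rw [← coeff_C_mul]
    congr 2
  rw [h0]
  by_cases h : ∀ i, dl N i ≤ β (σ i)
  · rw [if_pos h]
    have h1 : ∏ i, (Matrix.of fun i j : Fin N => Gm q t v k (dl N j) (β i)) (σ i) i =
        C (∏ i, (1 - v * q ^ (β (σ i) - dl N i) * t ^ (dl N i))) *
          ∏ i, gw (ph q t) k (β (σ i) - dl N i) := by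
      rw [map_prod, ← Finset.prod_mul_distrib]
      apply Finset.prod_congr rfl
      intro i _
      rw [Matrix.of_apply]
      unfold Gm
      rw [if_neg (not_lt.2 (h i))]
      rfl
    have h2 : coeff (ex (fun i => β (σ i) - dl N i)) (∏ i, gg q t N (α i)) =
        coeff (ex α) (∏ l, gw (ph q t) k (β (σ l) - dl N l)) :=
      st_SYM K (ph q t) k N α (fun i => β (σ i) - dl N i)
    rw [h1, coeff_C_mul, h2]
    ring
  · rw [if_neg h]
    obtain ⟨i, hi⟩ := not_forall.1 h
    rw [not_le] at hi
    have h1 : ∏ i, (Matrix.of fun i j : Fin N => Gm q t v k (dl N j) (β i)) (σ i) i = 0 := by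
      apply Finset.prod_eq_zero (Finset.mem_univ i)
      rw [Matrix.of_apply]
      unfold Gm
      rw [if_pos hi]
    rw [h1, coeff_zero, mul_zero]

end Pool.Agent.Helper25.HL
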